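import Mathlib

/-!
A finite poset with an element whose deletion changes the average heights of the other elements
by a total positive amount larger than `n - 1`.
-/

set_option autoImplicit false

namespace Pool.Agent.Results.MP_693840_co.BigShift

open Finset

/-- The linear extensions of a finite poset with `n` elements: order-preserving bijections onto
`{0, …, n - 1}`. -/
def LinExt (P : Type) [Fintype P] [PartialOrder P] : Type :=
  {f : P ≃ Fin (Fintype.card P) // ∀ u v, u < v → f u < f v}

noncomputable instance (P : Type) [Fintype P] [PartialOrder P] : Fintype (LinExt P) := by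
  classical
  exact Subtype.fintype _

/-- The average height of `y`: the expected position of `y`, positions being `1, …, n`, in a
uniformly random linear extension. -/
noncomputable def avgHeight (P : Type) [Fintype P] [PartialOrder P] (y : P) : ℚ :=
  (∑ f : LinExt P, (((f.1 y : ℕ) : ℚ) + 1)) / (Fintype.card (LinExt P) : ℚ)

/-! ### Linear extensions of relations on initial segments of `ℕ` -/

open Classical in
/-- The permutations of `Fin n` respecting the relation `r`. -/
noncomputable def LE (r : ℕ → ℕ → Prop) (n : ℕ) : Finset (Equiv.Perm (Fin n)) :=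
  univ.filter fun f => ∀ a b : Fin n, r a b → f a < f b

lemma mem_LE {r : ℕ → ℕ → Prop} {n : ℕ} {f : Equiv.Perm (Fin n)} :
    f ∈ LE r n ↔ ∀ a b : Fin n, r a b → f a < f b := by simp [LE]

/-- The average heights of a poset that is isomorphic to `Fin n` with the relation `r`. -/
lemma avgHeight_eq (P : Type) [Fintype P] [PartialOrder P] (n : ℕ) (r : ℕ → ℕ → Prop)
    (e : P ≃ Fin n) (he : ∀ a b : P, a < b ↔ r (e a) (e b)) (y : P) :
    avgHeight P y = (∑ f ∈ LE r n, (((f (e y) : ℕ) : ℚ) + 1)) / ((LE r n).card : ℚ) := by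
  classical
  have hc : Fintype.card P = n := by simpa using Fintype.card_congr e
  let E : LinExt P ≃ {g : Equiv.Perm (Fin n) // g ∈ LE r n} := by
    refine Equiv.subtypeEquiv (Equiv.equivCongr e (finCongr hc)) ?_
    intro f
    rw [mem_LE]
    constructor
    · intro h a b hab
      have := h (e.symm a) (e.symm b) ((he _ _).2 (by simpa using hab))
      simpa using this
    · intro h u v huv
      have := h (e u) (e v) ((he _ _).1 huv)
      simpa using this
  have h1 : ∑ f : LinExt P, (((f.1 y : ℕ) : ℚ) + 1)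
      = ∑ f ∈ LE r n, (((f (e y) : ℕ) : ℚ) + 1) := by
    rw [Fintype.sum_equiv E (fun f => (((f.1 y : ℕ) : ℚ) + 1))
      (fun g => (((g.1 (e y) : ℕ) : ℚ) + 1))]
    · exact (Finset.sum_subtype (LE r n) (fun _ => Iff.rfl)
        (fun g => (((g (e y) : ℕ) : ℚ) + 1))).symm
    · intro f
      have hE : (E f).1 = e.symm.trans (f.1.trans (finCongr hc)) := rfl
      rw [hE]
      simp
  have h2 : Fintype.card (LinExt P) = (LE r n).card := by
    rw [Fintype.card_congr E, Fintype.card_coe]
  rw [avgHeight, h1, h2]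

/-! ### Inserting one element -/

/-- Insert a last element at position `p`. -/
def ins {n : ℕ} (f : Equiv.Perm (Fin n)) (p : Fin (n + 1)) : Equiv.Perm (Fin (n + 1)) :=
  finSuccEquivLast.trans ((Equiv.optionCongr f).trans (finSuccEquiv' p).symm)

@[simp] lemma ins_last {n : ℕ} (f : Equiv.Perm (Fin n)) (p : Fin (n + 1)) :
    ins f p (Fin.last n) = p := by simp [ins]

@[simp] lemma ins_castSucc {n : ℕ} (f : Equiv.Perm (Fin n)) (p : Fin (n + 1)) (i : Fin n) :
    ins f p i.castSucc = p.succAbove (f i) := by simp [ins]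

lemma ins_bijective (n : ℕ) :
    Function.Bijective (fun q : Equiv.Perm (Fin n) × Fin (n + 1) => ins q.1 q.2) := by
  rw [Fintype.bijective_iff_injective_and_card]
  constructor
  · rintro ⟨f, p⟩ ⟨g, q⟩ h
    have h' : ins f p = ins g q := h
    have hp : p = q := by
      have := congrArg (fun k => k (Fin.last n)) h'
      simpa using this
    subst hp
    have hf : f = g := by
      apply Equiv.ext
      intro i
      have := congrArg (fun k => k i.castSucc) h'
      simpa using this
    rw [hf]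
  · simp [Fintype.card_perm, Nat.factorial_succ, mul_comm]

/-- The admissible positions for inserting the last element. -/
def Adm (r : ℕ → ℕ → Prop) {n : ℕ} (f : Equiv.Perm (Fin n)) (p : Fin (n + 1)) : Prop :=
  (∀ a : Fin n, r a n → (f a : ℕ) < p) ∧ (∀ b : Fin n, r n b → (p : ℕ) ≤ f b)

lemma ins_mem {r : ℕ → ℕ → Prop} {n : ℕ} (hr : ¬ r n n) (f : Equiv.Perm (Fin n))
    (p : Fin (n + 1)) : ins f p ∈ LE r (n + 1) ↔ f ∈ LE r n ∧ Adm r f p := by
  rw [mem_LE, mem_LE]
  constructor
  · intro h
    refine ⟨?_, ?_, ?_⟩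
    · intro a b hab
      have := h a.castSucc b.castSucc (by simpa using hab)
      simpa using this
    · intro a ha
      have := h a.castSucc (Fin.last n) (by simpa using ha)
      rw [ins_last, ins_castSucc, Fin.succAbove_lt_iff_castSucc_lt] at this
      simpa [Fin.lt_def] using this
    · intro b hb
      have := h (Fin.last n) b.castSucc (by simpa using hb)
      rw [ins_last, ins_castSucc, Fin.lt_succAbove_iff_le_castSucc] at this
      simpa [Fin.le_def] using this
  · rintro ⟨h1, h2, h3⟩ a b hab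
    induction a using Fin.lastCases with
    | last =>
      induction b using Fin.lastCases with
      | last => exact absurd (by simpa using hab) hr
      | cast b =>
        rw [ins_last, ins_castSucc, Fin.lt_succAbove_iff_le_castSucc]
        have := h3 b (by simpa using hab)
        simpa [Fin.le_def] using this
    | cast a =>
      induction b using Fin.lastCases with
      | last =>
        rw [ins_last, ins_castSucc, Fin.succAbove_lt_iff_castSucc_lt]
        have := h2 a (by simpa using hab)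
        simpa [Fin.lt_def] using this
      | cast b =>
        have := h1 a b (by simpa using hab)
        simpa using this

open Classical in
lemma sum_LE_succ {r : ℕ → ℕ → Prop} {n : ℕ} (hr : ¬ r n n)
    (F : Equiv.Perm (Fin (n + 1)) → ℚ) :
    ∑ g ∈ LE r (n + 1), F g
      = ∑ f ∈ LE r n, ∑ p : Fin (n + 1), if Adm r f p then F (ins f p) else 0 := by
  have h1 : ∑ g ∈ LE r (n + 1), F g
      = ∑ g : Equiv.Perm (Fin (n + 1)), if g ∈ LE r (n + 1) then F g else 0 := by
    rw [← Finset.sum_filter]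
    congr 1
    ext g
    simp
  rw [h1, ← Fintype.sum_bijective _ (ins_bijective n)
    (fun q => if q.1 ∈ LE r n ∧ Adm r q.1 q.2 then F (ins q.1 q.2) else 0) _ ?_]
  · rw [Fintype.sum_prod_type, ← Finset.sum_subset (Finset.subset_univ (LE r n))]
    · apply Finset.sum_congr rfl
      intro f hf
      apply Finset.sum_congr rfl
      intro p _
      simp [hf]
    · intro f _ hf
      simp [hf]
  · rintro ⟨f, p⟩
    simp only [ins_mem hr]

/-! ### Positions -/

/-- The position of the element with index `k`. -/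
def ev {n : ℕ} (f : Equiv.Perm (Fin n)) (k : ℕ) : ℕ := if h : k < n then f ⟨k, h⟩ else 0

lemma ev_lt {n : ℕ} (f : Equiv.Perm (Fin n)) {k : ℕ} (h : k < n) : ev f k < n := by
  unfold ev
  rw [dif_pos h]
  exact Fin.is_lt _

lemma ev_ins_last {n : ℕ} (f : Equiv.Perm (Fin n)) (p : Fin (n + 1)) : ev (ins f p) n = p := by
  have : (⟨n, Nat.lt_succ_self n⟩ : Fin (n + 1)) = Fin.last n := rfl
  simp [ev, this]

lemma ev_ins {n : ℕ} (f : Equiv.Perm (Fin n)) (p : Fin (n + 1)) {k : ℕ} (h : k < n) :
    ev (ins f p) k = if (p : ℕ) ≤ ev f k then ev f k + 1 else ev f k := by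
  have h1 : (⟨k, Nat.lt_succ_of_lt h⟩ : Fin (n + 1)) = Fin.castSucc ⟨k, h⟩ := rfl
  have h2 : k < n + 1 := Nat.lt_succ_of_lt h
  unfold ev
  rw [dif_pos h2, dif_pos h, h1, ins_castSucc, Fin.succAbove]
  by_cases h3 : (f ⟨k, h⟩).castSucc < p
  · have h4 : ((f ⟨k, h⟩ : Fin n) : ℕ) < (p : ℕ) := h3
    rw [if_pos h3, if_neg (by omega)]
    rfl
  · have h4 : ¬ ((f ⟨k, h⟩ : Fin n) : ℕ) < (p : ℕ) := h3
    rw [if_neg h3, if_pos (by omega)]
    rfl

lemma LE_ev {r : ℕ → ℕ → Prop} {n : ℕ} {f : Equiv.Perm (Fin n)} (hf : f ∈ LE r n) {a b : ℕ}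
    (ha : a < n) (hb : b < n) (h : r a b) : ev f a < ev f b := by
  have := mem_LE.1 hf ⟨a, ha⟩ ⟨b, hb⟩ h
  unfold ev
  rw [dif_pos ha, dif_pos hb]
  exact this

/-! ### The relation -/

/-- The order: `0, …, m + N - 1` is a chain, `m + N` lies below all elements of index at least
`m`, and (if `hx` holds) `m + N + 1` lies below `m, …, m + N - 1`. -/
def R (m N : ℕ) (hx : Bool) (a b : ℕ) : Prop :=
  (a < b ∧ b < m + N) ∨ (a = m + N ∧ m ≤ b ∧ b ≠ a) ∨
    (hx = true ∧ a = m + N + 1 ∧ m ≤ b ∧ b < m + N)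

/-- The first index of an element of the last group. -/
def base (m N : ℕ) (hx : Bool) : ℕ := if hx = true then m + N + 2 else m + N + 1

/-- The sum of the distances of the elements `m, …, m + N - 1` from `m + N`. -/
def D (m N : ℕ) {n : ℕ} (f : Equiv.Perm (Fin n)) : ℚ :=
  ∑ i ∈ range N, ((ev f (m + i) : ℚ) - ev f (m + N))

lemma R_irrefl (m N : ℕ) (hx : Bool) (n : ℕ) : ¬ R m N hx n n := by
  unfold R
  omega

lemma R_trans (m N : ℕ) (hx : Bool) {a b c : ℕ} (h1 : R m N hx a b) (h2 : R m N hx b c) :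
    R m N hx a c := by
  unfold R at *
  cases hx
  · simp only [Bool.false_eq_true, false_and, or_false] at *
    omega
  · simp only [true_and] at *
    omega

lemma Adm_of_base {m N : ℕ} {hx : Bool} {n : ℕ} (hn : base m N hx ≤ n)
    (f : Equiv.Perm (Fin n)) (p : Fin (n + 1)) :
    Adm (R m N hx) f p ↔ ev f (m + N) < p := by
  have hn' : m + N < n := by
    unfold base at hn
    split_ifs at hn <;> omega
  constructor
  · intro h
    have := h.1 ⟨m + N, hn'⟩ (Or.inr (Or.inl ⟨rfl, by omega, by simp only; omega⟩))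
    simpa [ev, hn'] using this
  · intro h
    constructor
    · intro a ha
      have ha2 := a.2
      have : (a : ℕ) = m + N := by
        unfold R at ha
        unfold base at hn
        split_ifs at hn <;> omega
      have h3 : a = ⟨m + N, hn'⟩ := Fin.ext this
      rw [h3]
      simpa [ev, hn'] using h
    · intro b hb
      exfalso
      have hb2 := b.2
      unfold R at hb
      unfold base at hn
      rcases hb with hb | hb | hb
      · omega
      · omega
      · rw [if_pos hb.1] at hn
        omega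

lemma sum_pos_one {n c : ℕ} (hc : c ≤ n) :
    (∑ p : Fin (n + 1), if c < (p : ℕ) then (1 : ℚ) else 0) = n - c := by
  rw [Fin.sum_univ_eq_sum_range (fun k => if c < k then (1 : ℚ) else 0) (n + 1),
    ← Finset.sum_filter, Finset.sum_const]
  have : (range (n + 1)).filter (fun k => c < k) = Ioc c n := by
    ext k
    simp
    omega
  rw [this, Nat.card_Ioc, nsmul_eq_mul, mul_one, Nat.cast_sub hc]

lemma sum_pos_le {n c u : ℕ} (hc : c ≤ u) (hu : u ≤ n) :
    (∑ p : Fin (n + 1), if c < (p : ℕ) ∧ (p : ℕ) ≤ u then (1 : ℚ) else 0) = u - c := by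
  rw [Fin.sum_univ_eq_sum_range (fun k => if c < k ∧ k ≤ u then (1 : ℚ) else 0) (n + 1),
    ← Finset.sum_filter, Finset.sum_const]
  have : (range (n + 1)).filter (fun k => c < k ∧ k ≤ u) = Ioc c u := by
    ext k
    simp
    omega
  rw [this, Nat.card_Ioc, nsmul_eq_mul, mul_one, Nat.cast_sub hc]

lemma D_ins {m N : ℕ} {n : ℕ} (hn : m + N < n)
    (f : Equiv.Perm (Fin n)) (p : Fin (n + 1)) (hp : ev f (m + N) < p) :
    ev (ins f p) (m + N) = ev f (m + N) ∧
    D m N (ins f p) = D m N f + ∑ i ∈ range N, if (p : ℕ) ≤ ev f (m + i) then (1 : ℚ) else 0 := by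
  have h1 : ev (ins f p) (m + N) = ev f (m + N) := by
    rw [ev_ins f p hn, if_neg (by omega)]
  refine ⟨h1, ?_⟩
  unfold D
  rw [← Finset.sum_add_distrib]
  apply Finset.sum_congr rfl
  intro i hi
  rw [mem_range] at hi
  rw [h1, ev_ins f p (by omega : m + i < n)]
  split_ifs
  · push_cast
    ring
  · ring

open Classical in
lemma step_Z {m N : ℕ} {hx : Bool} {n : ℕ} (hn : base m N hx ≤ n) (φ : ℕ → ℚ) :
    ∑ g ∈ LE (R m N hx) (n + 1), φ (ev g (m + N))
      = ∑ f ∈ LE (R m N hx) n, φ (ev f (m + N)) * ((n : ℚ) - ev f (m + N)) := by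
  have hn' : m + N < n := by
    unfold base at hn
    split_ifs at hn <;> omega
  rw [sum_LE_succ (R_irrefl m N hx n)]
  apply Finset.sum_congr rfl
  intro f _
  rw [← sum_pos_one (ev_lt f hn').le, Finset.mul_sum]
  apply Finset.sum_congr rfl
  intro p _
  simp only [Adm_of_base hn]
  split_ifs with h
  · rw [(D_ins hn' f p h).1, mul_one]
  · rw [mul_zero]

open Classical in
lemma step_D {m N : ℕ} {hx : Bool} {n : ℕ} (hn : base m N hx ≤ n) (φ : ℕ → ℚ) :
    ∑ g ∈ LE (R m N hx) (n + 1), φ (ev g (m + N)) * D m N g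
      = ∑ f ∈ LE (R m N hx) n, φ (ev f (m + N)) * ((n : ℚ) + 1 - ev f (m + N)) * D m N f := by
  have hn' : m + N < n := by
    unfold base at hn
    split_ifs at hn <;> omega
  rw [sum_LE_succ (R_irrefl m N hx n)]
  apply Finset.sum_congr rfl
  intro f hf
  have key : ∑ p : Fin (n + 1), (if ev f (m + N) < (p : ℕ) then
      (∑ i ∈ range N, if (p : ℕ) ≤ ev f (m + i) then (1 : ℚ) else 0) else 0) = D m N f := by
    have : ∀ p : Fin (n + 1), (if ev f (m + N) < (p : ℕ) then
      (∑ i ∈ range N, if (p : ℕ) ≤ ev f (m + i) then (1 : ℚ) else 0) else 0)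
        = ∑ i ∈ range N, if ev f (m + N) < (p : ℕ) ∧ (p : ℕ) ≤ ev f (m + i) then (1 : ℚ)
            else 0 := by
      intro p
      split_ifs with h
      · simp [h]
      · simp [h]
    simp only [this]
    rw [Finset.sum_comm]
    unfold D
    apply Finset.sum_congr rfl
    intro i hi
    rw [mem_range] at hi
    apply sum_pos_le
    · apply (LE_ev hf hn' (by omega : m + i < n) _).le
      unfold R
      omega
    · exact (ev_lt f (by omega : m + i < n)).le
  have h2 : ∀ p : Fin (n + 1), (if Adm (R m N hx) f p then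
      φ (ev (ins f p) (m + N)) * D m N (ins f p) else 0)
      = φ (ev f (m + N)) * D m N f * (if ev f (m + N) < (p : ℕ) then 1 else 0)
        + φ (ev f (m + N)) * (if ev f (m + N) < (p : ℕ) then
      (∑ i ∈ range N, if (p : ℕ) ≤ ev f (m + i) then (1 : ℚ) else 0) else 0) := by
    intro p
    simp only [Adm_of_base hn]
    split_ifs with h
    · rw [(D_ins hn' f p h).1, (D_ins hn' f p h).2]
      ring
    · ring
  simp only [h2]
  rw [Finset.sum_add_distrib, ← Finset.mul_sum, ← Finset.mul_sum, key,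
    sum_pos_one (ev_lt f hn').le]
  ring

lemma ind_Z {m N : ℕ} {hx : Bool} (k : ℕ) : ∀ φ : ℕ → ℚ,
    ∑ g ∈ LE (R m N hx) (base m N hx + k), φ (ev g (m + N))
      = ∑ f ∈ LE (R m N hx) (base m N hx), φ (ev f (m + N)) *
        ∏ i ∈ range k, ((base m N hx : ℚ) + i - ev f (m + N)) := by
  induction k with
  | zero => intro φ; simp
  | succ k ih =>
    intro φ
    rw [← add_assoc, step_Z (Nat.le_add_right _ _),
      ih (fun t => φ t * (((base m N hx + k : ℕ) : ℚ) - t))]
    apply Finset.sum_congr rfl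
    intro f _
    rw [Finset.prod_range_succ]
    push_cast
    ring

lemma ind_D {m N : ℕ} {hx : Bool} (k : ℕ) : ∀ φ : ℕ → ℚ,
    ∑ g ∈ LE (R m N hx) (base m N hx + k), φ (ev g (m + N)) * D m N g
      = ∑ f ∈ LE (R m N hx) (base m N hx), φ (ev f (m + N)) *
        (∏ i ∈ range k, ((base m N hx : ℚ) + i + 1 - ev f (m + N))) * D m N f := by
  induction k with
  | zero => intro φ; simp
  | succ k ih =>
    intro φ
    rw [← add_assoc, step_D (Nat.le_add_right _ _),
      ih (fun t => φ t * (((base m N hx + k : ℕ) : ℚ) + 1 - t))]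
    apply Finset.sum_congr rfl
    intro f _
    rw [Finset.prod_range_succ]
    push_cast
    ring

/-! ### The base cases -/

lemma LE_chain (m N : ℕ) (hx : Bool) : LE (R m N hx) (m + N) = {1} := by
  ext f
  rw [mem_LE, Finset.mem_singleton]
  constructor
  · intro h
    have hmono : StrictMono f := by
      intro a b hab
      exact h a b (Or.inl ⟨hab, b.2⟩)
    have h2 : (f : Fin (m + N) → Fin (m + N)) = id := by
      apply (StrictMono.range_inj hmono strictMono_id).1
      rw [Set.range_id, f.surjective.range_eq]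
    apply Equiv.ext
    intro i
    exact congrFun h2 i
  · rintro rfl a b hab
    have ha := a.2
    have hb := b.2
    rcases hab with h | h | h
    · exact h.1
    · omega
    · omega

lemma ev_one {n k : ℕ} (h : k < n) : ev (1 : Equiv.Perm (Fin n)) k = k := by
  unfold ev
  rw [dif_pos h]
  rfl

lemma sum_range_D (N : ℕ) (c : ℚ) :
    ∑ i ∈ range N, (c + i) = N * c + N * (N - 1) / 2 := by
  induction N with
  | zero => simp
  | succ N ih =>
    rw [Finset.sum_range_succ, ih]
    push_cast
    ring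

open Classical in
/-- Insertion of the element `m + N`. -/
lemma LE_c {m N : ℕ} (hN : 0 < N) (hx : Bool) (F : Equiv.Perm (Fin (m + N + 1)) → ℚ) :
    ∑ g ∈ LE (R m N hx) (m + N + 1), F g
      = ∑ p : Fin (m + N + 1), if (p : ℕ) ≤ m then F (ins 1 p) else 0 := by
  rw [sum_LE_succ (R_irrefl m N hx (m + N)), LE_chain, Finset.sum_singleton]
  apply Finset.sum_congr rfl
  intro p _
  have : Adm (R m N hx) (1 : Equiv.Perm (Fin (m + N))) p ↔ (p : ℕ) ≤ m := by
    constructor
    · intro h
      have := h.2 ⟨m, by omega⟩ (Or.inr (Or.inl ⟨rfl, le_refl m, by simp only; omega⟩))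
      simpa using this
    · intro h
      constructor
      · intro a ha
        have := a.2
        unfold R at ha
        omega
      · intro b hb
        have := b.2
        have h2 : m ≤ (b : ℕ) := by
          unfold R at hb
          omega
        have h3 : (((1 : Equiv.Perm (Fin (m + N))) b : Fin (m + N)) : ℕ) = b := rfl
        omega
  simp only [this]

lemma stats_c {m N : ℕ} (p : Fin (m + N + 1)) (hp : (p : ℕ) ≤ m) :
    ev (ins (1 : Equiv.Perm (Fin (m + N))) p) (m + N) = p ∧
    (∀ i < N, ev (ins (1 : Equiv.Perm (Fin (m + N))) p) (m + i) = m + i + 1) ∧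
    D m N (ins (1 : Equiv.Perm (Fin (m + N))) p) = N * ((m : ℚ) + 1 - p) + N * (N - 1) / 2 := by
  have h1 := ev_ins_last (1 : Equiv.Perm (Fin (m + N))) p
  have h2 : ∀ i < N, ev (ins (1 : Equiv.Perm (Fin (m + N))) p) (m + i) = m + i + 1 := by
    intro i hi
    rw [ev_ins _ p (by omega : m + i < m + N), ev_one (by omega : m + i < m + N),
      if_pos (by omega)]
  refine ⟨h1, h2, ?_⟩
  unfold D
  rw [← sum_range_D]
  apply Finset.sum_congr rfl
  intro i hi
  rw [mem_range] at hi
  rw [h1, h2 i hi]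
  push_cast
  ring

lemma base_false {m N : ℕ} (hN : 0 < N) (F : ℕ → ℚ → ℚ) :
    ∑ g ∈ LE (R m N false) (m + N + 1), F (ev g (m + N)) (D m N g)
      = ∑ t ∈ range (m + 1), F t (N * ((m : ℚ) + 1 - t) + N * (N - 1) / 2) := by
  rw [LE_c hN]
  have h1 : ∀ p : Fin (m + N + 1), (if (p : ℕ) ≤ m then
      F (ev (ins (1 : Equiv.Perm (Fin (m + N))) p) (m + N))
        (D m N (ins (1 : Equiv.Perm (Fin (m + N))) p)) else 0)
      = (fun k : ℕ => if k ≤ m then F k (N * ((m : ℚ) + 1 - k) + N * (N - 1) / 2) else 0) p := by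
    intro p
    split_ifs with h
    · obtain ⟨h2, _, h3⟩ := stats_c p h
      simp only [h, if_true, h2, h3]
    · simp only [h, if_false]
  rw [Finset.sum_congr rfl (fun p _ => h1 p), Fin.sum_univ_eq_sum_range
    (fun k : ℕ => if k ≤ m then F k (N * ((m : ℚ) + 1 - k) + N * (N - 1) / 2) else 0)
    (m + N + 1), ← Finset.sum_filter]
  apply Finset.sum_congr _ (fun _ _ => rfl)
  ext k
  simp
  omega

open Classical in
lemma base_true {m N : ℕ} (hN : 0 < N) (F : ℕ → ℚ → ℚ) :
    ∑ g ∈ LE (R m N true) (m + N + 2), F (ev g (m + N)) (D m N g)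
      = ∑ t ∈ range (m + 1), ((m : ℚ) + 1 - t) *
          F t (N * ((m : ℚ) + 1 - t) + N * (N - 1) / 2 + N) := by
  rw [sum_LE_succ (R_irrefl m N true (m + N + 1)), LE_c hN]
  have h1 : ∀ p : Fin (m + N + 1), (if (p : ℕ) ≤ m then
      ∑ q : Fin (m + N + 1 + 1), (if Adm (R m N true) (ins (1 : Equiv.Perm (Fin (m + N))) p) q
        then F (ev (ins (ins (1 : Equiv.Perm (Fin (m + N))) p) q) (m + N))
        (D m N (ins (ins (1 : Equiv.Perm (Fin (m + N))) p) q)) else 0) else 0)
      = (fun k : ℕ => if k ≤ m then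
          ((m : ℚ) + 1 - k) * F k (N * ((m : ℚ) + 1 - k) + N * (N - 1) / 2 + N) else 0) p := by
    intro p
    split_ifs with h
    · obtain ⟨h2, h2', h3⟩ := stats_c p h
      simp only [h, if_true]
      have hadm : ∀ q : Fin (m + N + 1 + 1),
          Adm (R m N true) (ins (1 : Equiv.Perm (Fin (m + N))) p) q ↔
            (p : ℕ) < q ∧ (q : ℕ) ≤ m + 1 := by
        intro q
        constructor
        · intro hq
          have hq1 := hq.1 ⟨m + N, by omega⟩ (Or.inr (Or.inl ⟨rfl, by omega, by omega⟩))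
          have hq2 := hq.2 ⟨m, by omega⟩
            (Or.inr (Or.inr ⟨rfl, rfl, le_refl m, by simp only; omega⟩))
          have e1 : (((ins (1 : Equiv.Perm (Fin (m + N))) p) ⟨m + N, by omega⟩ :
              Fin (m + N + 1)) : ℕ) = p := by
            rw [← h2]
            unfold ev
            rw [dif_pos (by omega)]
          have e2 : (((ins (1 : Equiv.Perm (Fin (m + N))) p) ⟨m, by omega⟩ :
              Fin (m + N + 1)) : ℕ) = m + 1 := by
            have := h2' 0 hN
            rw [add_zero] at this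
            rw [← this]
            unfold ev
            rw [dif_pos (by omega)]
          omega
        · rintro ⟨hq1, hq2⟩
          constructor
          · intro a ha
            have ha2 := a.2
            have : (a : ℕ) = m + N := by
              unfold R at ha
              omega
            have h4 : a = ⟨m + N, by omega⟩ := Fin.ext this
            have e1 : (((ins (1 : Equiv.Perm (Fin (m + N))) p) ⟨m + N, by omega⟩ :
              Fin (m + N + 1)) : ℕ) = p := by
              rw [← h2]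
              unfold ev
              rw [dif_pos (by omega)]
            rw [h4, e1]
            exact hq1
          · intro b hb
            have hb2 := b.2
            have hb3 : m ≤ (b : ℕ) ∧ (b : ℕ) < m + N := by
              unfold R at hb
              omega
            have e2 : (((ins (1 : Equiv.Perm (Fin (m + N))) p) b : Fin (m + N + 1)) : ℕ)
                = b + 1 := by
              have := h2' ((b : ℕ) - m) (by omega)
              have h5 : m + ((b : ℕ) - m) = b := by omega
              rw [h5] at this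
              rw [← this]
              unfold ev
              rw [dif_pos b.2]
            omega
      have h6 : ∀ q : Fin (m + N + 1 + 1),
          (if Adm (R m N true) (ins (1 : Equiv.Perm (Fin (m + N))) p) q
            then F (ev (ins (ins (1 : Equiv.Perm (Fin (m + N))) p) q) (m + N))
            (D m N (ins (ins (1 : Equiv.Perm (Fin (m + N))) p) q)) else 0)
          = (if (p : ℕ) < q ∧ (q : ℕ) ≤ m + 1 then (1 : ℚ) else 0) *
            F p (N * ((m : ℚ) + 1 - p) + N * (N - 1) / 2 + N) := by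
        intro q
        simp only [hadm]
        split_ifs with hq
        · have h7 : ev (ins (1 : Equiv.Perm (Fin (m + N))) p) (m + N) < q := by
            rw [h2]
            exact hq.1
          obtain ⟨h8, h9⟩ := D_ins (by omega : m + N < m + N + 1) _ q h7
          have h10 : (∑ i ∈ range N, if (q : ℕ) ≤ ev (ins (1 : Equiv.Perm (Fin (m + N))) p)
              (m + i) then (1 : ℚ) else 0) = N := by
            have : ∀ i ∈ range N, (if (q : ℕ) ≤ ev (ins (1 : Equiv.Perm (Fin (m + N))) p)
              (m + i) then (1 : ℚ) else 0) = 1 := by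
              intro i hi
              rw [mem_range] at hi
              rw [h2' i hi, if_pos (by omega)]
            rw [Finset.sum_congr rfl this]
            simp
          rw [h8, h9, h2, h3, h10, one_mul]
        · rw [zero_mul]
      rw [Finset.sum_congr rfl (fun q _ => h6 q), ← Finset.sum_mul,
        sum_pos_le (by omega) (by omega)]
      push_cast
      rfl
    · simp only [h, if_false]
  rw [Finset.sum_congr rfl (fun p _ => h1 p), Fin.sum_univ_eq_sum_range
    (fun k : ℕ => if k ≤ m then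
          ((m : ℚ) + 1 - k) * F k (N * ((m : ℚ) + 1 - k) + N * (N - 1) / 2 + N) else 0)
    (m + N + 1), ← Finset.sum_filter]
  apply Finset.sum_congr _ (fun _ _ => rfl)
  ext k
  simp
  omega

/-! ### The sums over all linear extensions -/

/-- Number of linear extensions, without the extra element. -/
def Z₀ (m N K : ℕ) : ℤ := ∑ t ∈ range (m + 1), ∏ i ∈ range K, ((m : ℤ) + N + 1 + i - t)

/-- Sum of the positions of `m + N`, without the extra element. -/
def C₀ (m N K : ℕ) : ℤ := ∑ t ∈ range (m + 1), t * ∏ i ∈ range K, ((m : ℤ) + N + 1 + i - t)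

/-- Twice the sum of `D`, without the extra element. -/
def D₀ (m N K : ℕ) : ℤ := ∑ t ∈ range (m + 1),
  (2 * (N * ((m : ℤ) + 1 - t)) + N * (N - 1)) * ∏ i ∈ range K, ((m : ℤ) + N + 2 + i - t)

/-- Number of linear extensions, with the extra element. -/
def Z₁ (m N K : ℕ) : ℤ := ∑ t ∈ range (m + 1),
  ((m : ℤ) + 1 - t) * ∏ i ∈ range K, ((m : ℤ) + N + 2 + i - t)

/-- Sum of the positions of `m + N`, with the extra element. -/
def C₁ (m N K : ℕ) : ℤ := ∑ t ∈ range (m + 1),
  ((m : ℤ) + 1 - t) * (t * ∏ i ∈ range K, ((m : ℤ) + N + 2 + i - t))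

/-- Twice the sum of `D`, with the extra element. -/
def D₁ (m N K : ℕ) : ℤ := ∑ t ∈ range (m + 1), ((m : ℤ) + 1 - t) *
  ((2 * (N * ((m : ℤ) + 1 - t)) + N * (N - 1) + 2 * N) *
    ∏ i ∈ range K, ((m : ℤ) + N + 3 + i - t))

lemma card_false {m N : ℕ} (hN : 0 < N) (K : ℕ) :
    ((LE (R m N false) (m + N + 1 + K)).card : ℚ) = Z₀ m N K := by
  have h := ind_Z (m := m) (N := N) (hx := false) K (fun _ => 1)
  have hb : base m N false = m + N + 1 := rfl
  rw [hb] at h
  rw [base_false hN (fun t _ => (fun _ => (1 : ℚ)) t *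
    ∏ i ∈ range K, (((m + N + 1 : ℕ) : ℚ) + i - t))] at h
  rw [Finset.sum_const, nsmul_eq_mul, mul_one] at h
  rw [h, Z₀]
  push_cast
  simp only [one_mul]

lemma C_false {m N : ℕ} (hN : 0 < N) (K : ℕ) :
    ∑ f ∈ LE (R m N false) (m + N + 1 + K), (ev f (m + N) : ℚ) = C₀ m N K := by
  have h := ind_Z (m := m) (N := N) (hx := false) K (fun t => (t : ℚ))
  have hb : base m N false = m + N + 1 := rfl
  rw [hb] at h
  rw [base_false hN (fun t _ => (fun t : ℕ => (t : ℚ)) t *
    ∏ i ∈ range K, (((m + N + 1 : ℕ) : ℚ) + i - t))] at h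
  rw [h, C₀]
  push_cast
  rfl

lemma D_false {m N : ℕ} (hN : 0 < N) (K : ℕ) :
    ∑ f ∈ LE (R m N false) (m + N + 1 + K), D m N f = (D₀ m N K : ℚ) / 2 := by
  have h := ind_D (m := m) (N := N) (hx := false) K (fun _ => 1)
  have hb : base m N false = m + N + 1 := rfl
  rw [hb] at h
  rw [base_false hN (fun t d => (fun _ => (1 : ℚ)) t *
    (∏ i ∈ range K, (((m + N + 1 : ℕ) : ℚ) + i + 1 - t)) * d)] at h
  simp only [one_mul] at h
  rw [h, D₀]
  push_cast
  rw [Finset.sum_div]
  apply Finset.sum_congr rfl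
  intro t _
  have : ∏ i ∈ range K, ((m : ℚ) + N + 1 + i + 1 - t)
      = ∏ i ∈ range K, ((m : ℚ) + N + 2 + i - t) := by
    apply Finset.prod_congr rfl
    intro i _
    ring
  rw [this]
  ring

lemma card_true {m N : ℕ} (hN : 0 < N) (K : ℕ) :
    ((LE (R m N true) (m + N + 2 + K)).card : ℚ) = Z₁ m N K := by
  have h := ind_Z (m := m) (N := N) (hx := true) K (fun _ => 1)
  have hb : base m N true = m + N + 2 := rfl
  rw [hb] at h
  rw [base_true hN (fun t _ => (fun _ => (1 : ℚ)) t *
    ∏ i ∈ range K, (((m + N + 2 : ℕ) : ℚ) + i - t))] at h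
  rw [Finset.sum_const, nsmul_eq_mul, mul_one] at h
  rw [h, Z₁]
  push_cast
  simp only [one_mul]

lemma C_true {m N : ℕ} (hN : 0 < N) (K : ℕ) :
    ∑ f ∈ LE (R m N true) (m + N + 2 + K), (ev f (m + N) : ℚ) = C₁ m N K := by
  have h := ind_Z (m := m) (N := N) (hx := true) K (fun t => (t : ℚ))
  have hb : base m N true = m + N + 2 := rfl
  rw [hb] at h
  rw [base_true hN (fun t _ => (fun t : ℕ => (t : ℚ)) t *
    ∏ i ∈ range K, (((m + N + 2 : ℕ) : ℚ) + i - t))] at h
  rw [h, C₁]
  push_cast
  rfl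

lemma D_true {m N : ℕ} (hN : 0 < N) (K : ℕ) :
    ∑ f ∈ LE (R m N true) (m + N + 2 + K), D m N f = (D₁ m N K : ℚ) / 2 := by
  have h := ind_D (m := m) (N := N) (hx := true) K (fun _ => 1)
  have hb : base m N true = m + N + 2 := rfl
  rw [hb] at h
  rw [base_true hN (fun t d => (fun _ => (1 : ℚ)) t *
    (∏ i ∈ range K, (((m + N + 2 : ℕ) : ℚ) + i + 1 - t)) * d)] at h
  simp only [one_mul] at h
  rw [h, D₁]
  push_cast
  rw [Finset.sum_div]
  apply Finset.sum_congr rfl
  intro t _
  have : ∏ i ∈ range K, ((m : ℚ) + N + 2 + i + 1 - t)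
      = ∏ i ∈ range K, ((m : ℚ) + N + 3 + i - t) := by
    apply Finset.prod_congr rfl
    intro i _
    ring
  rw [this]
  ring

/-! ### The poset -/

/-- Sum of the heights of the elements `m, …, m + N - 1`. -/
lemma height_sum {r : ℕ → ℕ → Prop} {m N n : ℕ} (hpos : (0 : ℚ) < ((LE r n).card : ℚ)) :
    ∑ i : Fin N, (∑ f ∈ LE r n, ((ev f (m + i) : ℚ) + 1)) / ((LE r n).card : ℚ)
      = N + (∑ f ∈ LE r n, D m N f + N * ∑ f ∈ LE r n, (ev f (m + N) : ℚ)) /
        ((LE r n).card : ℚ) := by
  rw [← Finset.sum_div, Finset.sum_comm]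
  have h1 : ∀ f ∈ LE r n, ∑ i : Fin N, ((ev f (m + i) : ℚ) + 1)
      = D m N f + N * (ev f (m + N) : ℚ) + N := by
    intro f _
    rw [Fin.sum_univ_eq_sum_range (fun k : ℕ => (ev f (m + k) : ℚ) + 1) N]
    unfold D
    rw [Finset.sum_sub_distrib, Finset.sum_add_distrib]
    simp
  rw [Finset.sum_congr rfl h1, Finset.sum_add_distrib, Finset.sum_add_distrib, ← Finset.mul_sum,
    Finset.sum_const, nsmul_eq_mul]
  field_simp
  ring

/-- The poset of the counterexample. -/
def Pos (m N K : ℕ) : Type := Fin (m + N + 1 + K + 1)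

instance (m N K : ℕ) : Fintype (Pos m N K) := inferInstanceAs (Fintype (Fin _))

instance (m N K : ℕ) : DecidableEq (Pos m N K) := inferInstanceAs (DecidableEq (Fin _))

/-- The index of an element. -/
def Pos.idx {m N K : ℕ} (a : Pos m N K) : Fin (m + N + 1 + K + 1) := a

instance (m N K : ℕ) : IsStrictOrder (Pos m N K)
    (fun a b => R m N true (a.idx : ℕ) (b.idx : ℕ)) where
  irrefl _ := R_irrefl m N true _
  trans _ _ _ := R_trans m N true

instance (m N K : ℕ) : PartialOrder (Pos m N K) :=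
  partialOrderOfSO (fun a b => R m N true (a.idx : ℕ) (b.idx : ℕ))

/-- The deleted element. -/
def xx (m N K : ℕ) : Pos m N K := (⟨m + N + 1, by omega⟩ : Fin (m + N + 1 + K + 1))

/-- The elements other than `xx`. -/
def sE (m N K : ℕ) : Fin (m + N + 1 + K) ≃ {y : Pos m N K // y ≠ xx m N K} :=
  finSuccAboveEquiv (n := m + N + 1 + K) (xx m N K)

lemma sE_val (m N K : ℕ) (i : Fin (m + N + 1 + K)) :
    (((sE m N K i).1.idx : Fin (m + N + 1 + K + 1)) : ℕ)
      = if (i : ℕ) < m + N + 1 then (i : ℕ) else i + 1 := by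
  have h : (sE m N K i).1.idx = Fin.succAbove (xx m N K).idx i := rfl
  rw [h, Fin.succAbove]
  by_cases h3 : i.castSucc < (xx m N K).idx
  · have h4 : (i : ℕ) < m + N + 1 := h3
    rw [if_pos h3, if_pos h4]
    rfl
  · have h4 : ¬ (i : ℕ) < m + N + 1 := h3
    rw [if_neg h3, if_neg h4]
    rfl

lemma sE_lt (m N K : ℕ) (i j : Fin (m + N + 1 + K)) :
    sE m N K i < sE m N K j ↔ R m N false i j := by
  have h : sE m N K i < sE m N K j ↔
    R m N true (((sE m N K i).1.idx : Fin (m + N + 1 + K + 1)) : ℕ)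
      (((sE m N K j).1.idx : Fin (m + N + 1 + K + 1)) : ℕ) := Iff.rfl
  rw [h, sE_val, sE_val]
  unfold R
  simp only [true_and, Bool.false_eq_true, false_and, or_false]
  split_ifs <;> omega

lemma numeric : 0 < Z₀ 30 1000 30 ∧ 0 < Z₁ 30 1000 30 ∧
    (D₀ 30 1000 30 + 2000 * C₀ 30 1000 30) * Z₁ 30 1000 30
      + 2122 * (Z₀ 30 1000 30 * Z₁ 30 1000 30) <
    (D₁ 30 1000 30 + 2000 * C₁ 30 1000 30) * Z₀ 30 1000 30 := by
  decide +kernel

lemma height_P (m N K : ℕ) (i : ℕ) (_hi : i < N) (y : Pos m N K) (hy : (y.idx : ℕ) = m + i) :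
    avgHeight (Pos m N K) y = (∑ f ∈ LE (R m N true) (m + N + 1 + K + 1),
      ((ev f (m + i) : ℚ) + 1)) / ((LE (R m N true) (m + N + 1 + K + 1)).card : ℚ) := by
  rw [avgHeight_eq (Pos m N K) (m + N + 1 + K + 1) (R m N true)
    (Equiv.refl (Fin (m + N + 1 + K + 1))) (fun a b => Iff.rfl)]
  congr 1
  apply Finset.sum_congr rfl
  intro f _
  have h : ev f (m + i) = f y.idx := by
    unfold ev
    rw [dif_pos (by omega)]
    congr 2
    exact Fin.ext hy.symm
  rw [h]
  rfl

lemma height_Q (m N K : ℕ) (i : ℕ) (hi : i < N) :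
    avgHeight {y : Pos m N K // y ≠ xx m N K} (sE m N K ⟨m + i, by omega⟩)
      = (∑ f ∈ LE (R m N false) (m + N + 1 + K), ((ev f (m + i) : ℚ) + 1)) /
        ((LE (R m N false) (m + N + 1 + K)).card : ℚ) := by
  rw [avgHeight_eq {y : Pos m N K // y ≠ xx m N K} (m + N + 1 + K) (R m N false)
    (sE m N K).symm]
  · congr 1
    apply Finset.sum_congr rfl
    intro f _
    rw [Equiv.symm_apply_apply]
    have h : ev f (m + i) = f ⟨m + i, by omega⟩ := by
      unfold ev
      rw [dif_pos (by omega)]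
    rw [h]
  · intro a b
    rw [← sE_lt, Equiv.apply_symm_apply, Equiv.apply_symm_apply]

lemma sums_true {m N : ℕ} (hN : 0 < N) (K : ℕ) : ∀ n, n = m + N + 2 + K →
    ((LE (R m N true) n).card : ℚ) = Z₁ m N K ∧
    ∑ f ∈ LE (R m N true) n, (ev f (m + N) : ℚ) = C₁ m N K ∧
    ∑ f ∈ LE (R m N true) n, D m N f = (D₁ m N K : ℚ) / 2 := by
  rintro _ rfl
  exact ⟨card_true hN K, C_true hN K, D_true hN K⟩

/-- There is a finite poset `P` with `n` elements and `x ∈ P` such that the sum of the positive
parts of the changes `h_P(y) - h_{P-x}(y)` of the average heights is larger than `n - 1`. -/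
theorem result : ¬ ∀ (P : Type) [Fintype P] [DecidableEq P] [PartialOrder P] (x : P),
    ∑ y : {y : P // y ≠ x}, max (avgHeight P y - avgHeight {y : P // y ≠ x} y) 0
      ≤ (Fintype.card P : ℚ) - 1 := by
  intro h
  have h1 := h (Pos 30 1000 30) (xx 30 1000 30)
  have hcard : (Fintype.card (Pos 30 1000 30) : ℚ) = 1062 := by
    have : Fintype.card (Pos 30 1000 30) = 1062 := Fintype.card_fin _
    rw [this]
    norm_num
  rw [hcard] at h1
  obtain ⟨hz0, hz1, hnum⟩ := numeric
  obtain ⟨t1, t2, t3⟩ := sums_true (m := 30) (N := 1000) (by norm_num) 30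
    (30 + 1000 + 1 + 30 + 1) (by norm_num)
  have f1 := card_false (m := 30) (N := 1000) (by norm_num) 30
  have f2 := C_false (m := 30) (N := 1000) (by norm_num) 30
  have f3 := D_false (m := 30) (N := 1000) (by norm_num) 30
  have hz0' : (0 : ℚ) < Z₀ 30 1000 30 := by exact_mod_cast hz0
  have hz1' : (0 : ℚ) < Z₁ 30 1000 30 := by exact_mod_cast hz1
  let j : Fin 1000 → {y : Pos 30 1000 30 // y ≠ xx 30 1000 30} := fun i =>
    sE 30 1000 30 ⟨30 + i, by omega⟩
  have hj : Function.Injective j := by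
    intro a b hab
    have := (sE 30 1000 30).injective hab
    have h3 : (30 + (a : ℕ)) = 30 + b := congrArg Fin.val this
    exact Fin.ext (by omega)
  have h2 : ∑ i : Fin 1000, (avgHeight (Pos 30 1000 30) (j i).1 -
      avgHeight {y : Pos 30 1000 30 // y ≠ xx 30 1000 30} (j i))
      ≤ ∑ y : {y : Pos 30 1000 30 // y ≠ xx 30 1000 30},
        max (avgHeight (Pos 30 1000 30) y -
          avgHeight {y : Pos 30 1000 30 // y ≠ xx 30 1000 30} y) 0 := by
    calc ∑ i : Fin 1000, (avgHeight (Pos 30 1000 30) (j i).1 -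
        avgHeight {y : Pos 30 1000 30 // y ≠ xx 30 1000 30} (j i))
        ≤ ∑ i : Fin 1000, max (avgHeight (Pos 30 1000 30) (j i).1 -
          avgHeight {y : Pos 30 1000 30 // y ≠ xx 30 1000 30} (j i)) 0 :=
          Finset.sum_le_sum fun i _ => le_max_left _ _
      _ = ∑ y ∈ univ.map ⟨j, hj⟩, max (avgHeight (Pos 30 1000 30) y.1 -
          avgHeight {y : Pos 30 1000 30 // y ≠ xx 30 1000 30} y) 0 := by
          rw [Finset.sum_map]
          rfl
      _ ≤ _ := Finset.sum_le_sum_of_subset_of_nonneg (Finset.subset_univ _)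
          fun y _ _ => le_max_right _ _
  have h3 : ∑ i : Fin 1000, (avgHeight (Pos 30 1000 30) (j i).1 -
      avgHeight {y : Pos 30 1000 30 // y ≠ xx 30 1000 30} (j i))
      = ((D₁ 30 1000 30 : ℚ) / 2 + 1000 * C₁ 30 1000 30) / Z₁ 30 1000 30
        - ((D₀ 30 1000 30 : ℚ) / 2 + 1000 * C₀ 30 1000 30) / Z₀ 30 1000 30 := by
    rw [Finset.sum_sub_distrib]
    have e1 : ∀ i : Fin 1000, avgHeight (Pos 30 1000 30) (j i).1
        = (∑ f ∈ LE (R 30 1000 true) (30 + 1000 + 1 + 30 + 1),
      ((ev f (30 + i) : ℚ) + 1)) / ((LE (R 30 1000 true) (30 + 1000 + 1 + 30 + 1)).card : ℚ) := by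
      intro i
      apply height_P 30 1000 30 i i.2
      have := sE_val 30 1000 30 ⟨30 + i, by omega⟩
      rw [if_pos (by simp only; omega)] at this
      exact this
    have e2 : ∀ i : Fin 1000, avgHeight {y : Pos 30 1000 30 // y ≠ xx 30 1000 30} (j i)
        = (∑ f ∈ LE (R 30 1000 false) (30 + 1000 + 1 + 30), ((ev f (30 + i) : ℚ) + 1)) /
        ((LE (R 30 1000 false) (30 + 1000 + 1 + 30)).card : ℚ) := by
      intro i
      exact height_Q 30 1000 30 i i.2
    rw [Finset.sum_congr rfl (fun i _ => e1 i), Finset.sum_congr rfl (fun i _ => e2 i),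
      height_sum (by rw [t1]; exact hz1'), height_sum (by rw [f1]; exact hz0'),
      t1, t2, t3, f1, f2, f3]
    push_cast
    ring
  have h4 : (1061 : ℚ) < ((D₁ 30 1000 30 : ℚ) / 2 + 1000 * C₁ 30 1000 30) / Z₁ 30 1000 30
        - ((D₀ 30 1000 30 : ℚ) / 2 + 1000 * C₀ 30 1000 30) / Z₀ 30 1000 30 := by
    have hnum' : ((D₀ 30 1000 30 : ℚ) + 2000 * C₀ 30 1000 30) * Z₁ 30 1000 30
      + 2122 * (Z₀ 30 1000 30 * Z₁ 30 1000 30) <
    (D₁ 30 1000 30 + 2000 * C₁ 30 1000 30) * Z₀ 30 1000 30 := by exact_mod_cast hnum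
    rw [lt_sub_iff_add_lt, add_div' _ _ _ hz0'.ne', div_lt_div_iff₀ hz0' hz1']
    linarith
  rw [← h3] at h4
  linarith

end Pool.Agent.Results.MP_693840_co.BigShift
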